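import Pool.Agent.MP_3d716e_an.H63.Spec

/-! The divergence terms of the calibration integrate to zero. -/

set_option autoImplicit false
open MeasureTheory Set Real Filter Topology
open Pool.Agent.MP_3d716e_an.H83 Pool.Agent.MP_3d716e_an.H63

namespace Pool.Agent.MP_3d716e_an.H17

noncomputable def rho (x : ℝ) : ℝ := Real.smoothTransition (x - 1)

lemma rho_cd : ContDiff ℝ 1 rho :=
  (Real.smoothTransition.contDiff (n := 1)).comp (contDiff_id.sub contDiff_const)

lemma rho_zero {x : ℝ} (h : x ≤ 1) : rho x = 0 :=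
  Real.smoothTransition.zero_of_nonpos (by linarith)

lemma rho_one {x : ℝ} (h : 2 ≤ x) : rho x = 1 :=
  Real.smoothTransition.one_of_one_le (by linarith)

lemma rho_nonneg (x : ℝ) : 0 ≤ rho x := Real.smoothTransition.nonneg _

lemma rho_le (x : ℝ) : rho x ≤ 1 := Real.smoothTransition.le_one _

lemma drho_lt {x : ℝ} (h : x < 1) : deriv rho x = 0 := by
  have : rho =ᶠ[𝓝 x] fun _ => 0 :=
    (eventually_lt_nhds h).mono fun y hy => rho_zero hy.le
  rw [this.deriv_eq]; simp

lemma drho_gt {x : ℝ} (h : 2 < x) : deriv rho x = 0 := by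
  have : rho =ᶠ[𝓝 x] fun _ => 1 :=
    (eventually_gt_nhds h).mono fun y hy => rho_one hy.le
  rw [this.deriv_eq]; simp

lemma drho_cont : Continuous (deriv rho) := rho_cd.continuous_deriv le_rfl

lemma drho_bd : ∃ C : ℝ, 0 ≤ C ∧ ∀ x, |x * deriv rho x| ≤ C := by
  obtain ⟨C, hC⟩ := (isCompact_Icc (a := (1 : ℝ)) (b := 2)).exists_bound_of_continuousOn
    (f := fun x => x * deriv rho x) (continuous_id.mul drho_cont).continuousOn
  have h0 : 0 ≤ C := (norm_nonneg _).trans (hC 1 (by simp))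
  refine ⟨C, h0, fun x => ?_⟩
  by_cases h1 : x < 1
  · simpa [drho_lt h1] using h0
  by_cases h2 : 2 < x
  · simpa [drho_gt h2] using h0
  exact hC x ⟨not_lt.1 h1, not_lt.1 h2⟩

/-- Directional derivative with differentiability. -/
def HD (v : P) (F : P → ℝ) (p : P) (e : ℝ) : Prop :=
  DifferentiableAt ℝ F p ∧ fderiv ℝ F p v = e

section
variable {v p : P} {F G : P → ℝ} {e e' : ℝ}

lemma HD.of (v : P) (h : DifferentiableAt ℝ F p) : HD v F p (fderiv ℝ F p v) := ⟨h, rfl⟩

lemma HD.mul (h1 : HD v F p e) (h2 : HD v G p e') :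
    HD v (fun q => F q * G q) p (e * G p + F p * e') := by
  refine ⟨h1.1.mul h2.1, ?_⟩
  rw [fderiv_fun_mul h1.1 h2.1, ← h1.2, ← h2.2]
  simp only [add_apply, smul_apply, smul_eq_mul]
  ring

lemma HD.add (h1 : HD v F p e) (h2 : HD v G p e') : HD v (fun q => F q + G q) p (e + e') := by
  refine ⟨h1.1.add h2.1, ?_⟩
  rw [fderiv_fun_add h1.1 h2.1, ← h1.2, ← h2.2]
  simp only [add_apply]

lemma HD.sub (h1 : HD v F p e) (h2 : HD v G p e') : HD v (fun q => F q - G q) p (e - e') := by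
  refine ⟨h1.1.sub h2.1, ?_⟩
  rw [fderiv_fun_sub h1.1 h2.1, ← h1.2, ← h2.2]
  simp only [sub_apply]

lemma HD.const (v p : P) (c : ℝ) : HD v (fun _ => c) p 0 := ⟨differentiableAt_const _, by simp⟩

lemma HD.comp {φ : ℝ → ℝ} {d : ℝ} (hφ : HasDerivAt φ d (F p)) (h : HD v F p e) :
    HD v (fun q => φ (F q)) p (d * e) := by
  have h1 : HasFDerivAt (fun q => φ (F q)) (d • fderiv ℝ F p) p :=
    hφ.comp_hasFDerivAt p h.1.hasFDerivAt
  refine ⟨h1.differentiableAt, ?_⟩
  rw [h1.fderiv, ← h.2]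
  simp only [smul_apply, smul_eq_mul]

end

lemma small {f : P → ℝ} (hf : Continuous f) (t : ℝ) {p : P} (h : f p = 0) :
    ∀ᶠ q in 𝓝 p, t * f q ^ 2 < 1 := by
  have h1 : ContinuousAt (fun q => t * f q ^ 2) p := (continuous_const.mul (hf.pow 2)).continuousAt
  refine h1.eventually_lt continuousAt_const ?_
  simp [h]

lemma cut {f V1 V2 D B : P → ℝ} (hf : ContDiff ℝ 1 f) (hc : HasCompactSupport f)
    (h1 : ∀ p, f p ≠ 0 → ContDiffAt ℝ 1 V1 p) (h2 : ∀ p, f p ≠ 0 → ContDiffAt ℝ 1 V2 p)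
    (hD : Integrable D) (hB : Integrable B)
    (hb : ∀ p, f p ≠ 0 → |dx f p * V1 p + dy f p * V2 p| ≤ |f p| * B p)
    (h0 : ∀ p, f p = 0 → D p = 0)
    (hN : ∀ p, f p ≠ 0 → 0 ≤ D p + (dx V1 p + dy V2 p)) : 0 ≤ ∫ p, D p := by
  obtain ⟨C, hC0, hC⟩ := drho_bd
  have cf := hf.continuous
  set ζ : ℝ → P → ℝ := fun t p => rho (t * f p ^ 2) with hζ
  set E : ℝ → P → ℝ := fun t p =>
    deriv rho (t * f p ^ 2) * (2 * t * f p * (dx f p * V1 p + dy f p * V2 p)) with hE
  have cζ : ∀ t, ContDiff ℝ 1 (ζ t) := fun t => rho_cd.comp (contDiff_const.mul (hf.pow 2))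
  have ev : ∀ (t : ℝ) (V : P → ℝ) (p : P), f p = 0 →
      (fun q => ζ t q * V q) =ᶠ[𝓝 p] fun _ => 0 := fun t V p hp =>
    (small cf t hp).mono fun q hq => by simp [hζ, rho_zero hq.le]
  have cd : ∀ (t : ℝ) (V : P → ℝ), (∀ p, f p ≠ 0 → ContDiffAt ℝ 1 V p) →
      ContDiff ℝ 1 fun q => ζ t q * V q := fun t V hV => by
    refine contDiff_iff_contDiffAt.2 fun p => ?_
    by_cases hp : f p = 0
    · exact contDiffAt_const.congr_of_eventuallyEq (ev t V p hp)
    · exact (cζ t).contDiffAt.mul (hV p hp)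
  have cs : ∀ (t : ℝ) (V : P → ℝ), HasCompactSupport fun q => ζ t q * V q := fun t V => by
    refine hc.mono fun p hp => ?_
    intro h
    apply hp
    simp [hζ, h, rho_zero]
  have cE : ∀ t, Continuous (E t) := fun t => by
    refine continuous_iff_continuousAt.2 fun p => ?_
    by_cases hp : f p = 0
    · refine (continuousAt_const (y := (0 : ℝ))).congr ?_
      exact (small cf t hp).mono fun q hq => by simp [hE, drho_lt hq]
    · exact ((drho_cont.comp (continuous_const.mul (cf.pow 2))).continuousAt).mul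
        ((continuous_const.mul cf).continuousAt.mul
          (((cont_dx hf).continuousAt.mul (h1 p hp).continuousAt).add
            ((cont_dy hf).continuousAt.mul (h2 p hp).continuousAt)))
  have dζ : ∀ (t : ℝ) (p v : P), HD v (ζ t) p
      (deriv rho (t * f p ^ 2) * (2 * t * f p * fderiv ℝ f p v)) := fun t p v => by
    have a1 := HD.of v (hf.differentiable one_ne_zero p)
    have a2 := (HD.const v p t).mul (a1.mul a1)
    have a3 : HD v (fun q => t * f q ^ 2) p (2 * t * f p * fderiv ℝ f p v) := by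
      have e1 : (fun q => t * f q ^ 2) = fun q => t * (f q * f q) := by funext q; ring
      rw [e1]
      refine ⟨a2.1, a2.2.trans (by ring)⟩
    exact HD.comp (F := fun q => t * f q ^ 2)
      (rho_cd.differentiable one_ne_zero _).hasDerivAt a3
  have pw : ∀ (t : ℝ) (p : P), -(fderiv ℝ (fun q => ζ t q * V1 q) p (1, 0) +
      fderiv ℝ (fun q => ζ t q * V2 q) p (0, 1)) ≤ ζ t p * D p - E t p := fun t p => by
    by_cases hp : f p = 0
    · rw [(ev t V1 p hp).fderiv_eq, (ev t V2 p hp).fderiv_eq]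
      simp [hE, hp, h0 p hp]
    · have a1 := ((dζ t p (1, 0)).mul
        (HD.of (1, 0) ((h1 p hp).differentiableAt one_ne_zero))).2
      have a2 := ((dζ t p (0, 1)).mul
        (HD.of (0, 1) ((h2 p hp).differentiableAt one_ne_zero))).2
      rw [a1, a2]
      have a3 := mul_nonneg (rho_nonneg (t * f p ^ 2)) (hN p hp)
      simp only [hE, hζ, dx, dy] at a3 ⊢
      linarith
  have bd : ∀ (t : ℝ) (p : P), ‖ζ t p * D p - E t p‖ ≤ |D p| + 2 * C * |B p| := fun t p => by
    have a1 : |ζ t p * D p| ≤ |D p| := by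
      rw [abs_mul, abs_of_nonneg (rho_nonneg _)]
      exact mul_le_of_le_one_left (abs_nonneg _) (rho_le _)
    have a2 : |E t p| ≤ 2 * C * |B p| := by
      by_cases hp : f p = 0
      · simp only [hE, hp, mul_zero, zero_mul, abs_zero]; positivity
      · have a3 := (hb p hp).trans (mul_le_mul_of_nonneg_left (le_abs_self _) (abs_nonneg _))
        have a4 := hC (t * f p ^ 2)
        calc |E t p| = 2 * |t * f p * deriv rho (t * f p ^ 2)| *
              |dx f p * V1 p + dy f p * V2 p| := by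
              rw [← abs_two, ← abs_mul, ← abs_mul]; simp only [hE]; congr 1; ring
          _ ≤ 2 * |t * f p * deriv rho (t * f p ^ 2)| * (|f p| * |B p|) := by gcongr
          _ = 2 * |t * f p ^ 2 * deriv rho (t * f p ^ 2)| * |B p| := by
              have : t * f p ^ 2 * deriv rho (t * f p ^ 2) =
                t * f p * deriv rho (t * f p ^ 2) * f p := by ring
              rw [this, abs_mul _ (f p)]; ring
          _ ≤ _ := by gcongr
    exact (abs_sub _ _).trans (add_le_add a1 a2)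
  have iB : Integrable fun p => |D p| + 2 * C * |B p| := hD.abs.add (hB.abs.const_mul _)
  have ms : ∀ t, AEStronglyMeasurable (fun p => ζ t p * D p - E t p) volume := fun t =>
    ((cζ t).continuous.aestronglyMeasurable.mul hD.aestronglyMeasurable).sub
      (cE t).aestronglyMeasurable
  have pos : ∀ t, 0 ≤ ∫ p, (ζ t p * D p - E t p) := fun t => by
    have i1 : Integrable fun p => fderiv ℝ (fun q => ζ t q * V1 q) p (1, 0) :=
      (cont_dx (cd t V1 h1)).integrable_of_hasCompactSupport (cs_dx (cs t V1))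
    have i2 : Integrable fun p => fderiv ℝ (fun q => ζ t q * V2 q) p (0, 1) :=
      (cont_dy (cd t V2 h2)).integrable_of_hasCompactSupport (cs_dy (cs t V2))
    have a1 := integral_mono (i1.add i2).neg (iB.mono' (ms t) (Eventually.of_forall (bd t))) (pw t)
    refine le_trans (le_of_eq ?_) a1
    simp only [Pi.neg_apply, Pi.add_apply]
    rw [integral_neg, integral_add i1 i2, int_fd (cd t V1 h1) (cs t V1),
      int_fd (cd t V2 h2) (cs t V2)]
    simp
  have lim : Tendsto (fun n : ℕ => ∫ p, (ζ n p * D p - E n p)) atTop (𝓝 (∫ p, D p)) := by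
    refine tendsto_integral_of_dominated_convergence _ (fun n => ms n) iB
      (fun n => Eventually.of_forall (bd n)) (Eventually.of_forall fun p => ?_)
    by_cases hp : f p = 0
    · simp [hE, hp, h0 p hp]
    · have a1 : Tendsto (fun n : ℕ => (n : ℝ) * f p ^ 2) atTop atTop :=
        tendsto_natCast_atTop_atTop.atTop_mul_const (by positivity)
      refine tendsto_const_nhds.congr' ((a1.eventually_gt_atTop 2).mono fun n hn => ?_)
      simp [hE, hζ, drho_gt hn, rho_one hn.le]
  exact ge_of_tendsto' lim fun n => pos n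

lemma alg {L l y y' φ φ' ψ ψ' z f fx fy a b c R : ℝ} (hf : f ≠ 0)
    (hz : z = R ^ 2 * (fx ^ 2 + fy ^ 2) / f ^ 2)
    (key : ∀ A B C : ℝ, 0 ≤ (A + C) ^ 2 - 2 * (A * C - B ^ 2) - L * z
      + (φ * (A + C) + (φ - 2 * z * φ') * z + 2 * φ' * (z * A))
      + ((2 * ψ + 2 * z * ψ') * (A * C - B ^ 2) - 2 * z * ψ' * (z * C))
      - ((y - 2 * z * y') ^ 2 * z + 4 * (y - 2 * z * y') * y' * (z * A)
          + 4 * y' ^ 2 * (z * (A ^ 2 + B ^ 2))) + l * y ^ 2) :
    0 ≤ R ^ 4 * ((a + c) ^ 2 - 2 * (a * c - b ^ 2)) - R ^ 2 * L * (fx ^ 2 + fy ^ 2)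
      - (R ^ 2 * ((y - 2 * z * y') ^ 2 * (fx ^ 2 + fy ^ 2)
          + 2 * (y - 2 * z * y') * (2 * R ^ 2 * y' / f) * (a * fx ^ 2 + 2 * b * fx * fy + c * fy ^ 2)
          + (2 * R ^ 2 * y' / f) ^ 2 * ((a * fx + b * fy) ^ 2 + (b * fx + c * fy) ^ 2))
        - l * (f * y) ^ 2)
      + R ^ 2 * (f * φ * (a + c) + (φ - 2 * z * φ') * (fx ^ 2 + fy ^ 2)
        + 2 * R ^ 2 * φ' * (a * fx ^ 2 + 2 * b * fx * fy + c * fy ^ 2) / f
        + R ^ 2 * (2 * ψ * (a * c - b ^ 2) + ψ' * (2 * z * (a * c - b ^ 2)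
          - 2 * z * (c * fx ^ 2 - 2 * b * fx * fy + a * fy ^ 2) / f))) := by
  obtain ⟨g, n, m, hx, hy, hn⟩ : ∃ g n m : ℝ, fx = g * n ∧ fy = g * m ∧ n ^ 2 + m ^ 2 = 1 := by
    by_cases h : fx ^ 2 + fy ^ 2 = 0
    · refine ⟨0, 1, 0, ?_, ?_, by norm_num⟩ <;> nlinarith [sq_nonneg fx, sq_nonneg fy]
    · have h1 : 0 < fx ^ 2 + fy ^ 2 := lt_of_le_of_ne (by positivity) (Ne.symm h)
      have h2 : 0 < √(fx ^ 2 + fy ^ 2) := Real.sqrt_pos.2 h1
      have h3 := Real.sq_sqrt h1.le
      refine ⟨√(fx ^ 2 + fy ^ 2), fx / √(fx ^ 2 + fy ^ 2), fy / √(fx ^ 2 + fy ^ 2),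
        by field_simp, by field_simp, ?_⟩
      rw [div_pow, div_pow, h3]; field_simp
  obtain ⟨A, hA⟩ : ∃ A, A = a * n ^ 2 + 2 * b * n * m + c * m ^ 2 := ⟨_, rfl⟩
  obtain ⟨B, hB⟩ : ∃ B, B = (c - a) * n * m + b * (n ^ 2 - m ^ 2) := ⟨_, rfl⟩
  obtain ⟨C, hC⟩ : ∃ C, C = c * n ^ 2 - 2 * b * n * m + a * m ^ 2 := ⟨_, rfl⟩
  have e1 : a + c = A + C := by rw [hA, hC]; linear_combination (-(a + c)) * hn
  have e2 : a * c - b ^ 2 = A * C - B ^ 2 := by
    rw [hA, hB, hC]; linear_combination (-(a * c - b ^ 2) * (n ^ 2 + m ^ 2 + 1)) * hn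
  have e3 : fx ^ 2 + fy ^ 2 = g ^ 2 := by rw [hx, hy]; linear_combination g ^ 2 * hn
  have e4 : a * fx ^ 2 + 2 * b * fx * fy + c * fy ^ 2 = g ^ 2 * A := by rw [hx, hy, hA]; ring
  have e5 : c * fx ^ 2 - 2 * b * fx * fy + a * fy ^ 2 = g ^ 2 * C := by rw [hx, hy, hC]; ring
  have e6 : (a * fx + b * fy) ^ 2 + (b * fx + c * fy) ^ 2 = g ^ 2 * (A ^ 2 + B ^ 2) := by
    rw [hx, hy, hA, hB]
    linear_combination (-g ^ 2 * ((a * n + b * m) ^ 2 + (b * n + c * m) ^ 2)) * hn
  rw [e3] at hz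
  rw [e1, e2, e3, e4, e5, e6]
  have k := mul_nonneg (sq_nonneg f) (key (R ^ 2 * A / f) (R ^ 2 * B / f) (R ^ 2 * C / f))
  refine k.trans (le_of_eq ?_)
  rw [hz]
  field_simp
  ring

theorem div : DivStmt := by
  intro L l y φ ψ hC f hf hc R hR hI
  obtain ⟨K, hK⟩ := hC.bd
  have f1 : ContDiff ℝ 1 f := hf.of_le (by norm_num)
  have hx : ContDiff ℝ 2 (dx f) := cd_dx hf (by norm_num)
  have hy : ContDiff ℝ 2 (dy f) := cd_dy hf (by norm_num)
  have hx1 : ContDiff ℝ 1 (dx f) := hx.of_le (by norm_num)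
  have hy1 : ContDiff ℝ 1 (dy f) := hy.of_le (by norm_num)
  have ha : ContDiff ℝ 1 (dx (dx f)) := cd_dx hx (by norm_num)
  have hb : ContDiff ℝ 1 (dy (dx f)) := cd_dy hx (by norm_num)
  have hcc : ContDiff ℝ 1 (dy (dy f)) := cd_dy hy (by norm_num)
  have s0 : dx (dy f) = dy (dx f) := symm_xy (hf.of_le (by norm_num))
  have s1 : dx (dy (dx f)) = dy (dx (dx f)) := symm_xy hx
  have s2 : dx (dy (dy f)) = dy (dy (dx f)) := by rw [symm_xy hy, s0]
  have z0 : ∀ p, 0 ≤ zf R f p := fun p => by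
    have := g2_nonneg f p
    unfold zf; positivity
  have cz : ∀ p, f p ≠ 0 → ContDiffAt ℝ 1 (zf R f) p := fun p hp =>
    (contDiffAt_const.mul ((hx1.pow 2).add (hy1.pow 2)).contDiffAt).div
      (f1.pow 2).contDiffAt (pow_ne_zero 2 hp)
  set V1 : P → ℝ := fun p => R ^ 2 * (f p * (φ (zf R f p) - L) * dx f p +
    R ^ 2 * (ψ (zf R f p) * (dy (dy f) p * dx f p - dy (dx f) p * dy f p))) with hV1
  set V2 : P → ℝ := fun p => R ^ 2 * (f p * (φ (zf R f p) - L) * dy f p +
    R ^ 2 * (ψ (zf R f p) * (dx (dx f) p * dy f p - dy (dx f) p * dx f p))) with hV2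
  have cφ : ∀ p, f p ≠ 0 → ContDiffAt ℝ 1 (fun q => φ (zf R f q)) p := fun p hp =>
    (hC.cφ _ (z0 p)).comp p (cz p hp)
  have cψ : ∀ p, f p ≠ 0 → ContDiffAt ℝ 1 (fun q => ψ (zf R f q)) p := fun p hp =>
    (hC.cψ _ (z0 p)).comp p (cz p hp)
  have csa := cs_dx (cs_dx hc)
  have csb := cs_dy (cs_dx hc)
  have csc := cs_dy (cs_dy hc)
  have sq : ∀ g : P → ℝ, Continuous g → HasCompactSupport g → Integrable fun p => g p ^ 2 :=
    fun g h1 h2 => by simpa only [sq] using imul h1 h1 h2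
  have iH : Integrable (hess2 f) :=
    ((sq _ ha.continuous csa).add ((sq _ hb.continuous csb).const_mul 2)).add
      (sq _ hcc.continuous csc)
  have ia := imul f1.continuous ha.continuous csa
  have ic := imul f1.continuous hcc.continuous csc
  have iG := int_g2 f1 hc
  have iT : Integrable fun p => f p * dx (dx f) p + f p * dy (dy f) p := ia.add ic
  have eT : ∫ p, (f p * dx (dx f) p + f p * dy (dy f) p) = -∫ p, g2 f p := by
    have a1 : ∫ p, f p * dx (dx f) p = -∫ p, dx f p * dx f p := ibp f1 hx1 (cs_dx hc) (1, 0)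
    have a2 : ∫ p, f p * dy (dy f) p = -∫ p, dy f p * dy f p := ibp f1 hy1 (cs_dy hc) (0, 1)
    rw [integral_add ia ic, a1, a2, ← neg_add, ← integral_add
      (imul hx1.continuous hx1.continuous (cs_dx hc))
      (imul hy1.continuous hy1.continuous (cs_dy hc))]
    simp only [g2, pow_two]
  have K0 : 0 ≤ K := (abs_nonneg _).trans (hK 0 le_rfl).1
  have main : 0 ≤ ∫ p, (R ^ 4 * hess2 f p - Psi R l y f p +
      R ^ 2 * L * (f p * dx (dx f) p + f p * dy (dy f) p)) := by
    refine cut (V1 := V1) (V2 := V2) (B := fun p => R ^ 2 * ((K + |L|) * g2 f p +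
      (K * R ^ 2 * g2 f p + 1) * (|dx (dx f) p| + |dy (dx f) p| + |dy (dy f) p|))) f1 hc
      (fun p hp => ?_) (fun p hp => ?_) (((iH.const_mul _).sub hI).add (iT.const_mul _)) ?_
      (fun p hp => ?_) (fun p hp => by simp [Psi, hp]) (fun p hp => ?_)
    · exact contDiffAt_const.mul (((f1.contDiffAt.mul ((cφ p hp).sub contDiffAt_const)).mul
        hx1.contDiffAt).add (contDiffAt_const.mul ((cψ p hp).mul
          ((hcc.mul hx1).sub (hb.mul hy1)).contDiffAt)))
    · exact contDiffAt_const.mul (((f1.contDiffAt.mul ((cφ p hp).sub contDiffAt_const)).mul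
        hy1.contDiffAt).add (contDiffAt_const.mul ((cψ p hp).mul
          ((ha.mul hy1).sub (hb.mul hx1)).contDiffAt)))
    · refine ((iG.const_mul _).add (imul ((continuous_const.mul (cont_g2 f1)).add
        continuous_const) ((ha.continuous.abs.add hb.continuous.abs).add hcc.continuous.abs)
        ((csa.abs.add csb.abs).add csc.abs))).const_mul _
    · obtain ⟨k1, k2, -⟩ := hK _ (z0 p)
      have hz : R ^ 2 * g2 f p = zf R f p * f p ^ 2 := by unfold zf; field_simp
      have G0 := g2_nonneg f p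
      have hz0 := z0 p
      simp only [hV1, hV2]
      generalize zf R f p = z at *
      generalize φ z = u at *
      generalize ψ z = w at *
      have hM : |dy (dy f) p * dx f p ^ 2 - 2 * dy (dx f) p * dx f p * dy f p
          + dx (dx f) p * dy f p ^ 2| ≤
          g2 f p * (|dx (dx f) p| + |dy (dx f) p| + |dy (dy f) p|) := by
        unfold g2
        generalize dx (dx f) p = a
        generalize dy (dx f) p = b
        generalize dy (dy f) p = c
        generalize dx f p = s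
        generalize dy f p = t
        have a1 := mul_le_mul_of_nonneg_right (le_abs_self a) (sq_nonneg t)
        have a2 := mul_le_mul_of_nonneg_right (neg_abs_le a) (sq_nonneg t)
        have a3 := mul_le_mul_of_nonneg_right (le_abs_self c) (sq_nonneg s)
        have a4 := mul_le_mul_of_nonneg_right (neg_abs_le c) (sq_nonneg s)
        have a5 := mul_nonneg (abs_nonneg a) (sq_nonneg s)
        have a6 := mul_nonneg (abs_nonneg c) (sq_nonneg t)
        have a7 := mul_nonneg (sub_nonneg.2 (le_abs_self b)) (sq_nonneg (s - t))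
        have a8 := mul_nonneg (sub_nonneg.2 (neg_abs_le b)) (sq_nonneg (s + t))
        have a9 := mul_nonneg (sub_nonneg.2 (le_abs_self b)) (sq_nonneg (s + t))
        have a10 := mul_nonneg (sub_nonneg.2 (neg_abs_le b)) (sq_nonneg (s - t))
        rw [abs_le]
        constructor <;> nlinarith
      have hw : |w| * (R ^ 2 * g2 f p) ≤ |f p| * (K * R ^ 2 * g2 f p + 1) := by
        have a1 : (|w| * z * |f p|) ^ 2 ≤ K * R ^ 2 * g2 f p := by
          have : (|w| * z * |f p|) ^ 2 = w ^ 2 * z * (z * f p ^ 2) := by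
            rw [mul_pow, mul_pow, sq_abs, sq_abs]; ring
          rw [this, mul_assoc K, hz]
          exact mul_le_mul_of_nonneg_right k2 (by positivity)
        have a2 : |w| * z * |f p| ≤ K * R ^ 2 * g2 f p + 1 := by
          nlinarith [sq_nonneg (|w| * z * |f p| - 1), sq_nonneg (|w| * z * |f p|)]
        calc |w| * (R ^ 2 * g2 f p) = |f p| * (|w| * z * |f p|) := by
              rw [hz, ← sq_abs (f p)]; ring
          _ ≤ _ := by gcongr
      have hu : |u - L| ≤ K + |L| := (abs_sub _ _).trans (by linarith)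
      have e : dx f p * (R ^ 2 * (f p * (u - L) * dx f p +
          R ^ 2 * (w * (dy (dy f) p * dx f p - dy (dx f) p * dy f p)))) +
          dy f p * (R ^ 2 * (f p * (u - L) * dy f p +
          R ^ 2 * (w * (dx (dx f) p * dy f p - dy (dx f) p * dx f p)))) =
          R ^ 2 * (f p * (u - L) * g2 f p + R ^ 2 * w * (dy (dy f) p * dx f p ^ 2
            - 2 * dy (dx f) p * dx f p * dy f p + dx (dx f) p * dy f p ^ 2)) := by
        unfold g2; ring
      rw [e]
      generalize dy (dy f) p * dx f p ^ 2 - 2 * dy (dx f) p * dx f p * dy f p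
          + dx (dx f) p * dy f p ^ 2 = M at *
      have S0 : 0 ≤ |dx (dx f) p| + |dy (dx f) p| + |dy (dy f) p| := by positivity
      generalize |dx (dx f) p| + |dy (dx f) p| + |dy (dy f) p| = S at *
      have b1 : |f p * (u - L) * g2 f p| ≤ |f p| * ((K + |L|) * g2 f p) := by
        rw [abs_mul, abs_mul, abs_of_nonneg G0, mul_assoc]; gcongr
      have b2 : |R ^ 2 * w * M| ≤ |f p| * ((K * R ^ 2 * g2 f p + 1) * S) := by
        rw [abs_mul, abs_mul, abs_of_nonneg (sq_nonneg R)]
        calc R ^ 2 * |w| * |M| ≤ R ^ 2 * |w| * (g2 f p * S) := by gcongr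
          _ = |w| * (R ^ 2 * g2 f p) * S := by ring
          _ ≤ |f p| * (K * R ^ 2 * g2 f p + 1) * S := by gcongr
          _ = _ := by ring
      rw [abs_mul, abs_of_nonneg (sq_nonneg R)]
      calc R ^ 2 * |f p * (u - L) * g2 f p + R ^ 2 * w * M|
          ≤ R ^ 2 * (|f p| * ((K + |L|) * g2 f p) + |f p| * ((K * R ^ 2 * g2 f p + 1) * S)) := by
            gcongr
            exact (abs_add_le _ _).trans (add_le_add b1 b2)
        _ = _ := by ring
    · have d : ∀ (g : P → ℝ) (v : P), ContDiff ℝ 1 g → HD v g p (fderiv ℝ g p v) :=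
        fun g v hg => HD.of v (hg.differentiable one_ne_zero p)
      have dz : ∀ v : P, HD v (zf R f) p
          (R ^ 2 * (2 * dx f p * fderiv ℝ (dx f) p v + 2 * dy f p * fderiv ℝ (dy f) p v) / f p ^ 2
            - 2 * zf R f p * fderiv ℝ f p v / f p) := fun v => by
        have a1 := HD.comp (F := f) (hasDerivAt_inv hp) (d f v f1)
        have a2 := ((HD.const v p (R ^ 2)).mul (((d _ v hx1).mul (d _ v hx1)).add
          ((d _ v hy1).mul (d _ v hy1)))).mul (a1.mul a1)
        have e1 : zf R f = fun q => R ^ 2 * (dx f q * dx f q + dy f q * dy f q) *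
            ((f q)⁻¹ * (f q)⁻¹) := by
          funext q; simp only [zf, g2, div_eq_mul_inv, ← inv_pow]; ring
        refine ⟨e1 ▸ a2.1, ?_⟩
        have a3 := a2.2
        rw [← e1] at a3
        rw [a3]
        simp only [zf, g2]
        field_simp
        ring
      have dφ := fun v => HD.comp (F := zf R f)
        ((hC.cφ _ (z0 p)).differentiableAt one_ne_zero).hasDerivAt (dz v)
      have dψ := fun v => HD.comp (F := zf R f)
        ((hC.cψ _ (z0 p)).differentiableAt one_ne_zero).hasDerivAt (dz v)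
      have d1 := ((HD.const (1, 0) p (R ^ 2)).mul ((((d f (1, 0) f1).mul
        ((dφ (1, 0)).sub (HD.const _ p L))).mul (d _ _ hx1)).add ((HD.const _ p (R ^ 2)).mul
          ((dψ (1, 0)).mul (((d _ _ hcc).mul (d _ _ hx1)).sub ((d _ _ hb).mul (d _ _ hy1))))))).2
      have d2 := ((HD.const (0, 1) p (R ^ 2)).mul ((((d f (0, 1) f1).mul
        ((dφ (0, 1)).sub (HD.const _ p L))).mul (d _ _ hy1)).add ((HD.const _ p (R ^ 2)).mul
          ((dψ (0, 1)).mul (((d _ _ ha).mul (d _ _ hy1)).sub ((d _ _ hb).mul (d _ _ hx1))))))).2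
      have x1 : ∀ g : P → ℝ, fderiv ℝ g p (1, 0) = dx g p := fun _ => rfl
      have x2 : ∀ g : P → ℝ, fderiv ℝ g p (0, 1) = dy g p := fun _ => rfl
      simp only [x1, x2, s0, s1, s2] at d1 d2
      have hz : zf R f p = R ^ 2 * (dx f p ^ 2 + dy f p ^ 2) / f p ^ 2 := rfl
      have k := alg (a := dx (dx f) p) (b := dy (dx f) p) (c := dy (dy f) p) hp hz
        (hC.key _ (z0 p))
      simp only [hV1, hV2]
      rw [d1, d2]
      refine k.trans (le_of_eq ?_)
      simp only [Psi, if_neg hp, hess2, Yx, Yy]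
      generalize deriv φ (zf R f p) = φ'
      generalize deriv ψ (zf R f p) = ψ'
      generalize deriv y (zf R f p) = y'
      generalize φ (zf R f p) = φ0
      generalize ψ (zf R f p) = ψ0
      generalize y (zf R f p) = y0
      rw [hz]
      field_simp
      ring
  have i1 : Integrable fun p => R ^ 4 * hess2 f p - Psi R l y f p := (iH.const_mul _).sub hI
  rw [integral_add i1 (iT.const_mul _), integral_sub (iH.const_mul _) hI, integral_const_mul,
    integral_const_mul, eT] at main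
  rw [integral_sub (iH.const_mul _) (iG.const_mul _), integral_const_mul, integral_const_mul]
  linarith

end Pool.Agent.MP_3d716e_an.H17
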